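import Mathlib
import Pool.Agent.Helper98.RingGeom
import Pool.Agent.Helper98.RingSync

/-!
Approximate uniform covering of a ring by oblivious sensors under the semi-synchronous scheduler,
without common orientation.

Positions on the ring `ℝ / L ℤ` are described by real lifts `x i` (the sensor `i` sits at the
point `x i mod L`, and `+` is the clockwise direction).  The sensors know neither indices, nor `n`,
nor `L`, nor `d = L / n`, nor the clockwise direction.
-/

namespace Pool.Agent.Results.MP_5c423c_lc.SsyncCovering

/-- The snapshot of sensor `i`, in global coordinates centred at the sensor: all signed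
displacements `u` along the ring with `|u| ≤ V` (the visibility range) such that some sensor sits
at the point obtained from sensor `i` by moving `u`. (No identities are visible.) -/
def snapshot {n : ℕ} (L V : ℝ) (x : Fin n → ℝ) (i : Fin n) : Set ℝ :=
  {u | |u| ≤ V ∧ ∃ j : Fin n, ∃ k : ℤ, x j + k * L = x i + u}

/-- A deterministic, oblivious, anonymous algorithm: it receives the visibility range measured in
the sensor's own unit of length and the snapshot in the sensor's own coordinates, and returns the
destination (a signed displacement in the sensor's own coordinates). -/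
abbrev Algorithm : Type := ℝ → Set ℝ → ℝ

/-- The signed displacement, in global coordinates, from sensor `i` to the destination it computes.
The local frame of sensor `i` is the nonzero number `a i`: a global displacement `u` has local
coordinate `a i * u`; the sign of `a i` is the private orientation of the sensor and `|a i|` its
private unit of length. -/
noncomputable def destination {n : ℕ} (alg : Algorithm) (L V : ℝ) (a : Fin n → ℝ)
    (x : Fin n → ℝ) (i : Fin n) : ℝ :=
  alg (|a i| * V) ((fun u => a i * u) '' snapshot L V x i) / a i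

/-- An execution under SSYNC: `x t i` is the (lifted) position of sensor `i` at tick `t` and
`act t` the set of sensors activated at tick `t`. -/
structure SsyncExecution (alg : Algorithm) {n : ℕ} (L V δ : ℝ) (a : Fin n → ℝ)
    (x : ℕ → Fin n → ℝ) (act : ℕ → Set (Fin n)) : Prop where
  /-- initially the sensors sit at distinct points, in clockwise order `0, 1, …, n-1` … -/
  start_mono : StrictMono (x 0)
  /-- … within one turn of the ring -/
  start_turn : ∀ i j, x 0 j < x 0 i + L
  /-- at every tick a nonempty set of sensors is activated -/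
  act_nonempty : ∀ t, (act t).Nonempty
  /-- every sensor is activated infinitely often -/
  fair : ∀ i t, ∃ t' ≥ t, i ∈ act t'
  /-- a sensor that is not activated does not move -/
  idle : ∀ t, ∀ i ∉ act t, x (t + 1) i = x t i
  /-- an activated sensor moves toward its destination; it may be stopped early (`s < 1`), but
  not before it has covered the distance `δ` -/
  move : ∀ t, ∀ i ∈ act t, ∃ s : ℝ, 0 ≤ s ∧ s ≤ 1 ∧
    x (t + 1) i = x t i + s * destination alg L V a (x t) i ∧
    min δ |destination alg L V a (x t) i| ≤ s * |destination alg L V a (x t) i|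

/-- The clockwise distance on the ring of length `L` from the point `p` to the point `q`
(given by real lifts); it lies in `[0, L)`. -/
noncomputable def cwDist (L p q : ℝ) : ℝ := L * Int.fract ((q - p) / L)

/-- The algorithm: go toward the side where the (visible) gap is larger, by a quarter of the
difference of the two gaps; a side on which no sensor is visible counts as a gap equal to the
visibility range. -/
noncomputable def midAlg : Algorithm := fun v S =>
  (sInf (insert v {u | u ∈ S ∧ 0 < u}) - sInf (insert v {u | -u ∈ S ∧ 0 < u})) / 4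

open Pool.Agent.Helper98.Ring

theorem sInf_scaled {c V m : ℝ} {P Q : Set ℝ} (hc : 0 < c) (h : IsLeast (insert V P) m)
    (hQ : ∀ u, u ∈ Q ↔ ∃ w ∈ P, u = c * w) : sInf (insert (c * V) Q) = c * m := by
  apply IsLeast.csInf_eq
  constructor
  · rcases h.1 with h1 | h1
    · left; rw [h1]
    · right; exact (hQ _).2 ⟨m, h1, rfl⟩
  · rintro u (rfl | hu)
    · exact mul_le_mul_of_nonneg_left (h.2 (Set.mem_insert _ _)) hc.le
    · obtain ⟨w, hw, rfl⟩ := (hQ u).1 hu
      exact mul_le_mul_of_nonneg_left (h.2 (Set.mem_insert_of_mem _ hw)) hc.le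

theorem least_right {m : ℕ} {L V : ℝ} (hV : 0 < V) (x : Fin (m + 1) → ℝ)
    (h : ∀ i, 0 < gap L x i) (i : Fin (m + 1)) :
    IsLeast (insert V {u | u ∈ snapshot L V x i ∧ 0 < u}) (min (gap L x i) V) := by
  obtain ⟨hex, hmin⟩ := nearest_right L x h i
  constructor
  · rcases le_total (gap L x i) V with hle | hle
    · rw [min_eq_left hle]
      right
      exact ⟨⟨by rw [abs_of_pos (h i)]; exact hle, hex⟩, h i⟩
    · rw [min_eq_right hle]
      exact Set.mem_insert _ _
  · rintro u (rfl | ⟨⟨_, hu⟩, hu0⟩)
    · exact min_le_right _ _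
    · exact (min_le_left _ _).trans (hmin u hu0 hu)

theorem least_left {m : ℕ} {L V : ℝ} (hV : 0 < V) (x : Fin (m + 1) → ℝ)
    (h : ∀ i, 0 < gap L x i) (i : Fin (m + 1)) :
    IsLeast (insert V {u | -u ∈ snapshot L V x i ∧ 0 < u}) (min (gap L x (i - 1)) V) := by
  obtain ⟨hex, hmin⟩ := nearest_left L x h i
  constructor
  · rcases le_total (gap L x (i - 1)) V with hle | hle
    · rw [min_eq_left hle]
      right
      exact ⟨⟨by rw [abs_neg, abs_of_pos (h (i - 1))]; exact hle, by simpa [sub_eq_add_neg] using hex⟩,
        h (i - 1)⟩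
    · rw [min_eq_right hle]
      exact Set.mem_insert _ _
  · rintro u (rfl | ⟨⟨_, hu⟩, hu0⟩)
    · exact min_le_right _ _
    · exact (min_le_left _ _).trans (hmin u hu0 (by simpa [sub_eq_add_neg] using hu))

theorem destination_midAlg {m : ℕ} {L V : ℝ} (hV : 0 < V) (a x : Fin (m + 1) → ℝ)
    (i : Fin (m + 1)) (ha : a i ≠ 0) (h : ∀ i, 0 < gap L x i) :
    destination midAlg L V a x i = (min (gap L x i) V - min (gap L x (i - 1)) V) / 4 := by
  have hr := least_right hV x h i
  have hl := least_left hV x h i
  unfold destination midAlg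
  rcases lt_or_gt_of_ne ha with hneg | hpos
  · have hc : 0 < -a i := by linarith
    rw [abs_of_neg hneg]
    rw [sInf_scaled hc hl, sInf_scaled hc hr]
    · field_simp
      ring
    · intro u
      constructor
      · rintro ⟨⟨w, hw, hwu⟩, hu⟩
        refine ⟨w, ⟨hw, ?_⟩, by simp only at hwu; linarith⟩
        by_contra hc'
        simp only at hwu
        nlinarith
      · rintro ⟨w, ⟨hw, hw0⟩, rfl⟩
        exact ⟨⟨w, hw, by ring⟩, mul_pos hc hw0⟩
    · intro u
      constructor
      · rintro ⟨⟨w, hw, hwu⟩, hu⟩
        refine ⟨-w, ⟨by simpa using hw, ?_⟩, by simp only at hwu; linarith⟩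
        by_contra hc'
        simp only at hwu
        nlinarith
      · rintro ⟨w, ⟨hw, hw0⟩, rfl⟩
        exact ⟨⟨-w, hw, by ring⟩, mul_pos hc hw0⟩
  · rw [abs_of_pos hpos]
    rw [sInf_scaled hpos hr, sInf_scaled hpos hl]
    · field_simp
    · intro u
      constructor
      · rintro ⟨⟨w, hw, hwu⟩, hu⟩
        refine ⟨-w, ⟨by simpa using hw, ?_⟩, by simp only at hwu; linarith⟩
        by_contra hc'
        simp only at hwu
        nlinarith
      · rintro ⟨w, ⟨hw, hw0⟩, rfl⟩
        exact ⟨⟨-w, hw, by ring⟩, mul_pos hpos hw0⟩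
    · intro u
      constructor
      · rintro ⟨⟨w, hw, hwu⟩, hu⟩
        refine ⟨w, ⟨hw, ?_⟩, by simp only at hwu; linarith⟩
        by_contra hc'
        simp only at hwu
        nlinarith
      · rintro ⟨w, ⟨hw, hw0⟩, rfl⟩
        exact ⟨⟨w, hw, by ring⟩, mul_pos hpos hw0⟩

theorem gap_pos_of_start {m : ℕ} {L : ℝ} (x : Fin (m + 1) → ℝ) (h1 : StrictMono x)
    (h2 : ∀ i j, x j < x i + L) (i : Fin (m + 1)) : 0 < gap L x i := by
  unfold gap
  by_cases hi : i + 1 = 0
  · rw [hi, if_pos rfl]
    have := h2 0 i
    linarith
  · rw [if_neg hi]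
    have hne : i ≠ Fin.last m := fun h => hi (by rw [h]; simp)
    obtain ⟨i', rfl⟩ := Fin.exists_castSucc_eq.2 hne
    have h3 : i'.castSucc + 1 = i'.succ := by simp
    rw [h3]
    have := h1 (Fin.castSucc_lt_succ (i := i'))
    linarith

theorem cwDist_eq_gap {m : ℕ} (hm : 1 ≤ m) {L : ℝ} (x : Fin (m + 1) → ℝ)
    (h : ∀ i, 0 < gap L x i) (i : Fin (m + 1)) : cwDist L (x i) (x (i + 1)) = gap L x i := by
  have hsum := sum_gap L x
  have hL : 0 < L := by
    rw [← hsum]
    exact Finset.sum_pos (fun i _ => h i) Finset.univ_nonempty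
  have hlt : gap L x i < L := by
    have hne : i + 1 ≠ i := by
      intro hc
      have h1 : (1 : Fin (m + 1)) = 0 := by simpa using hc
      rw [Fin.ext_iff] at h1
      have : (1 : Fin (m + 1)).val = 1 := by
        rw [Fin.val_one']
        exact Nat.mod_eq_of_lt (by omega)
      rw [this] at h1
      exact absurd h1 (by simp)
    calc gap L x i < gap L x i + gap L x (i + 1) := by linarith [h (i + 1)]
      _ = ∑ j ∈ {i, i + 1}, gap L x j := by rw [Finset.sum_pair hne.symm]
      _ ≤ ∑ j, gap L x j := Finset.sum_le_sum_of_subset_of_nonneg (Finset.subset_univ _)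
          (fun j _ _ => (h j).le)
      _ = L := hsum
  have h1 : Int.fract ((x (i + 1) - x i) / L) = gap L x i / L := by
    rw [Int.fract_eq_iff]
    refine ⟨div_nonneg (h i).le hL.le, by rw [div_lt_one hL]; exact hlt, ?_⟩
    refine ⟨if i + 1 = 0 then -1 else 0, ?_⟩
    unfold gap
    rw [← sub_div]
    split_ifs
    · push_cast
      field_simp
      ring
    · push_cast
      field_simp
      ring
  unfold cwDist
  rw [h1]
  field_simp

/-- **Main result (positive answer to Q1).**  There is one algorithm which, without common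
orientation and without knowledge of `d`, `n` or `L`, solves approximate covering of the ring under
the SSYNC scheduler for every `ε > 0`: for all `n ≥ 2`, all ring lengths `L`, all visibility ranges
`V ≥ 2 d`, all private frames, all initial configurations and all SSYNC executions (with moves
possibly stopped early), the sensors never collide or overtake each other, and for every `ε > 0`
they form an `ε`-approximate covering from some tick on. -/
theorem result : ∃ alg : Algorithm, ∀ (n : ℕ) [NeZero n], 2 ≤ n → ∀ L V δ : ℝ,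
    0 < L → 2 * (L / n) ≤ V → 0 < δ → ∀ a : Fin n → ℝ, (∀ i, a i ≠ 0) →
    ∀ (x : ℕ → Fin n → ℝ) (act : ℕ → Set (Fin n)), SsyncExecution alg L V δ a x act →
      (∀ t, StrictMono (x t) ∧ ∀ i j, x t j < x t i + L) ∧
      ∀ ε > 0, ∃ T, ∀ t ≥ T, ∀ i : Fin n,
        L / n - ε ≤ cwDist L (x t i) (x t (i + 1)) ∧
        cwDist L (x t i) (x t (i + 1)) ≤ L / n + ε := by
  refine ⟨midAlg, ?_⟩
  intro n _ hn L V δ hL hV hδ a ha x act hex
  obtain ⟨m, rfl⟩ : ∃ m, n = m + 1 := ⟨n - 1, by omega⟩
  have hnpos : (0 : ℝ) < ((m + 1 : ℕ) : ℝ) := by positivity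
  have hVpos : 0 < V := lt_of_lt_of_le (by positivity) hV
  -- every state with positive gaps steps to a state with positive gaps
  have hstep : ∀ t, (∀ i, 0 < gap L (x t) i) → ∀ i, ∃ s : ℝ, 0 ≤ s ∧ s ≤ 1 ∧
      x (t + 1) i - x t i = s * ((min (gap L (x t) i) V - min (gap L (x t) (i - 1)) V) / 4) ∧
      (i ∈ act t → min δ |(min (gap L (x t) i) V - min (gap L (x t) (i - 1)) V) / 4| ≤
        |x (t + 1) i - x t i|) ∧ (i ∉ act t → x (t + 1) i - x t i = 0) := by
    intro t hg i
    have hd := destination_midAlg hVpos a (x t) i (ha i) hg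
    by_cases hi : i ∈ act t
    · obtain ⟨s, hs0, hs1, hs, hs'⟩ := hex.move t i hi
      rw [hd] at hs hs'
      refine ⟨s, hs0, hs1, by rw [hs]; ring, fun _ => ?_, fun h => absurd hi h⟩
      rw [hs, add_sub_cancel_left, abs_mul, abs_of_nonneg hs0]
      exact hs'
    · exact ⟨0, le_rfl, zero_le_one, by rw [hex.idle t i hi]; ring, fun h => absurd h hi,
        fun _ => by rw [hex.idle t i hi]; ring⟩
  have hgapstep : ∀ t i, gap L (x (t + 1)) i = gap L (x t) i + (x (t + 1) (i + 1) - x t (i + 1)) -
      (x (t + 1) i - x t i) := by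
    intro t i
    unfold gap
    ring
  have hpos : ∀ t i, 0 < gap L (x t) i := by
    intro t
    induction t with
    | zero => exact gap_pos_of_start (x 0) hex.start_mono hex.start_turn
    | succ t ih =>
      intro i
      rw [hgapstep]
      obtain ⟨s, hs0, hs1, hs, -⟩ := hstep t ih i
      obtain ⟨s', hs0', hs1', hs', -⟩ := hstep t ih (i + 1)
      rw [hs, hs', add_sub_cancel_right]
      have h1 := ih i
      have h2 : 0 < min (gap L (x t) (i - 1)) V := lt_min (ih _) hVpos
      have h3 : 0 < min (gap L (x t) (i + 1)) V := lt_min (ih _) hVpos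
      have h4 : min (gap L (x t) i) V ≤ gap L (x t) i := min_le_left _ _
      have h5 : 0 < min (gap L (x t) i) V := lt_min h1 hVpos
      have h6 : s * ((min (gap L (x t) i) V - min (gap L (x t) (i - 1)) V) / 4) ≤
          gap L (x t) i / 4 := by
        have : s * ((min (gap L (x t) i) V - min (gap L (x t) (i - 1)) V) / 4) ≤
          s * (gap L (x t) i / 4) := mul_le_mul_of_nonneg_left (by linarith) hs0
        nlinarith
      have h7 : -(gap L (x t) i / 4) ≤
          s' * ((min (gap L (x t) (i + 1)) V - min (gap L (x t) i) V) / 4) := by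
        have : s' * (-(gap L (x t) i) / 4) ≤
          s' * ((min (gap L (x t) (i + 1)) V - min (gap L (x t) i) V) / 4) :=
            mul_le_mul_of_nonneg_left (by linarith) hs0'
        nlinarith
      linarith
  refine ⟨fun t => strictMono_of_gap L (x t) (hpos t), ?_⟩
  obtain ⟨-, hconv⟩ := gaps_converge (n := m + 1) L V δ hL hV hδ (fun t => gap L (x t))
    (fun t i => x (t + 1) i - x t i) hgapstep
    (fun t i => by
      obtain ⟨s, hs0, hs1, hs, -⟩ := hstep t (hpos t) i
      exact ⟨s, hs0, hs1, hs⟩)
    (fun t i => by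
      obtain ⟨s, hs0, hs1, hs, h1, h2⟩ := hstep t (hpos t) i
      by_cases hi : i ∈ act t
      · exact Or.inr (h1 hi)
      · exact Or.inl (h2 hi))
    (fun i t => by
      obtain ⟨t', ht', hi⟩ := hex.fair i t
      obtain ⟨s, hs0, hs1, hs, h1, h2⟩ := hstep t' (hpos t') i
      exact ⟨t', ht', h1 hi⟩)
    (fun t => sum_gap L (x t)) (hpos 0)
  intro ε hε
  obtain ⟨T, hT⟩ := hconv ε hε
  refine ⟨T, fun t ht i => ?_⟩
  rw [cwDist_eq_gap (by omega) (x t) (hpos t) i]
  have := abs_le.1 (hT t ht i)
  constructor <;> linarith [this.1, this.2]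

end Pool.Agent.Results.MP_5c423c_lc.SsyncCovering
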